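import Pool.Agent.H45.ConnDec
import Pool.Agent.H45.MstInt

open SimpleGraph MeasureTheory Set Pool.Agent.H45.ConnDec Pool.Agent.H45.Mst

namespace Pool.Agent.Results.MP_ddaf7c_pr.Grid

/-- spanning trees of `G` -/
def trees {V : Type} (G : SimpleGraph V) : Set (SimpleGraph V) := {T | T ≤ G ∧ T.IsTree}

/-- `|V|` is even and deleting some edge of `T` leaves components with `|V| / 2` vertices each -/
def Splittable {V : Type} (T : SimpleGraph V) : Prop :=
  Even (Nat.card V) ∧ ∃ e ∈ T.edgeSet,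
    ∀ c : (T.deleteEdges {e}).ConnectedComponent, 2 * c.supp.ncard = Nat.card V

noncomputable def pUST {V : Type} (G : SimpleGraph V) : ℝ :=
  ({T ∈ trees G | Splittable T}.ncard : ℝ) / (trees G).ncard

open Classical in
/-- total weight of the edges of `T` -/
noncomputable def weight {V : Type} [Fintype V] {G : SimpleGraph V} (w : G.edgeSet → ℝ)
    (T : SimpleGraph V) : ℝ := ∑ e : G.edgeSet, if e.1 ∈ T.edgeSet then w e else 0

open Classical in
/-- probability, for i.i.d. uniform `[0,1]` edge weights, that every spanning tree of minimum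
total weight is splittable -/
noncomputable def pMST {V : Type} [Fintype V] (G : SimpleGraph V) : ℝ :=
  (Measure.pi fun _ : G.edgeSet => (volume : Measure ℝ).restrict (Icc 0 1)).real
    {w | ∀ T ∈ trees G, (∀ T' ∈ trees G, weight w T ≤ weight w T') → Splittable T}

abbrev V := Fin 2 × Fin 4

def g : Fin 10 → V × V := ![((0, 0), (0, 1)), ((0, 1), (0, 2)), ((0, 2), (0, 3)), ((1, 0), (1, 1)),
  ((1, 1), (1, 2)), ((1, 2), (1, 3)), ((0, 0), (1, 0)), ((0, 1), (1, 1)), ((0, 2), (1, 2)),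
  ((0, 3), (1, 3))]

def el : List (V × V) := List.ofFn g

def enc (v : V) : ℕ := 4 * v.1 + v.2

lemma enc_inj : enc.Injective := by decide

set_option synthInstance.maxSize 2000 in
lemma ok : Ok el := by unfold Ok; decide +kernel

def c (l : List (V × V)) : Bool := decide (∀ u, (reach enc 7 l (0, 0)).testBit (enc u))

def sp (l : List (V × V)) : Bool := l.any fun p => decide (∀ v,
  (Finset.univ.filter fun u => (reach enc 7 (l.filter (· ≠ p)) v).testBit (enc u)).card = 4)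

lemma hc (l : List (V × V)) : (mk l).Connected ↔ c l := by
  rw [conn_iff enc_inj (n := 7) (by simp) l (0, 0), c, decide_eq_true_eq]

lemma inj {p q : V × V} (hp : p ∈ el) (hq : q ∈ el) : s(p.1, p.2) = s(q.1, q.2) ↔ p = q := by
  refine ⟨fun he => ?_, fun h => h ▸ rfl⟩
  rcases Sym2.eq_iff.1 he with ⟨h1, h2⟩ | ⟨h1, h2⟩
  · exact Prod.ext h1 h2
  · exact absurd (show (p.2, p.1) ∈ el by rwa [h1, h2]) (ok.2 p hp).2

lemma mem_edge {l : List (V × V)} {e : Sym2 V} (h : e ∈ (mk l).edgeSet) :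
    ∃ p ∈ l, e = s(p.1, p.2) := by
  rw [H45.ConnDec.mk, edgeSet_fromEdgeSet] at h; exact h.1

lemma hs {l : List (V × V)} (hl : l.Sublist el) : Splittable (mk l) ↔ sp l := by
  have A : ∀ p ∈ l, (∀ c : ((mk l).deleteEdges {s(p.1, p.2)}).ConnectedComponent,
      2 * c.supp.ncard = Nat.card V) ↔ ∀ v, (Finset.univ.filter fun u =>
        (reach enc 7 (l.filter (· ≠ p)) v).testBit (enc u)).card = 4 := fun p hp => by
    have : (mk l).deleteEdges {s(p.1, p.2)} = mk (l.filter (· ≠ p)) := by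
      ext u w
      simp only [deleteEdges_adj, mk_adj, List.mem_filter, mem_singleton_iff, decide_eq_true_eq]
      have h1 : (u, w) ∈ l → (s(u, w) = s(p.1, p.2) ↔ (u, w) = p) := fun h =>
        inj (hl.subset h) (hl.subset hp)
      have h2 : (w, u) ∈ l → (s(u, w) = s(p.1, p.2) ↔ (w, u) = p) := fun h => by
        rw [Sym2.eq_swap]; exact inj (hl.subset h) (hl.subset hp)
      tauto
    rw [this]
    refine (Quot.mk_surjective.forall).trans (forall_congr' fun v => ?_)
    have : (ConnectedComponent.supp (G := mk (l.filter (· ≠ p))) (Quot.mk _ v)) =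
        ↑(Finset.univ.filter fun u => (reach enc 7 (l.filter (· ≠ p)) v).testBit (enc u)) := by
      ext u
      rw [Finset.coe_filter_univ, mem_ofPred_eq, reach_iff enc_inj (by simp), reachable_comm]
      exact ConnectedComponent.eq
    rw [this, ncard_coe_finset]
    simp; omega
  simp only [Splittable, sp, List.any_eq_true, decide_eq_true_eq]
  refine ⟨fun ⟨_, e, he, h⟩ => ?_, fun ⟨p, hp, h⟩ =>
    ⟨by simp; decide, _, (ok.adj hl (hl.subset hp)).2 hp, (A p hp).2 h⟩⟩
  obtain ⟨p, hp, rfl⟩ := mem_edge he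
  exact ⟨p, hp, (A p hp).1 h⟩

lemma tree_iff (T : SimpleGraph V) : T.IsTree ↔ T.edgeSet.ncard = 7 ∧ T.Connected := by
  rw [isTree_iff_connected_and_card, and_comm, Nat.card_coe_set_eq]
  simp

def σ : Fin 12 → Fin 10 → Fin 10 := ![![0, 7, 2, 3, 6, 5, 9, 1, 4, 8], ![0, 7, 9, 3, 6, 2, 5, 1, 4, 8],
  ![3, 7, 5, 0, 6, 2, 9, 1, 4, 8], ![3, 7, 9, 0, 6, 2, 5, 1, 4, 8], ![6, 7, 2, 0, 3, 5, 9, 1, 4, 8],
  ![6, 7, 5, 0, 3, 2, 9, 1, 4, 8], ![2, 8, 0, 5, 9, 3, 6, 1, 4, 7], ![2, 8, 6, 5, 9, 0, 3, 1, 4, 7],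
  ![5, 8, 3, 2, 9, 0, 6, 1, 4, 7], ![5, 8, 6, 2, 9, 0, 3, 1, 4, 7], ![9, 8, 0, 2, 5, 3, 6, 1, 4, 7],
  ![9, 8, 3, 2, 5, 0, 6, 1, 4, 7]]

def ex (l : List (V × V)) (x y : V × V) := el.filter fun p => p = x ∨ (p ∈ l ∧ p ≠ y)

lemma key : ∀ l ∈ el.sublistsLen 7, c l → sp l ∨ ∃ k, ∀ ij ∈ [((0, 3) : Fin 10 × Fin 10), (0, 4),
    (2, 5), (2, 6), (0, 7), (1, 7), (0, 8), (1, 8), (0, 9), (1, 9), (2, 9)],
    g (σ k ij.1) ∉ l ∧ g (σ k ij.2) ∈ l ∧ c (ex l (g (σ k ij.1)) (g (σ k ij.2))) ∧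
      (ex l (g (σ k ij.1)) (g (σ k ij.2))).length = 7 := by decide +kernel

lemma g_mem (i : Fin 10) : g i ∈ el := List.mem_ofFn.2 ⟨i, rfl⟩

def E (i : Fin 10) : (mk el).edgeSet :=
  ⟨s((g i).1, (g i).2), (ok.adj (.refl _) (g_mem i)).2 (g_mem i)⟩

open Classical in
lemma exch (w : (mk el).edgeSet → ℝ) {l : List (V × V)} (hl : l.Sublist el) {i j : Fin 10}
    (hi : g i ∉ l) (hj : g j ∈ l) :
    weight w (mk (ex l (g i) (g j))) + w (E j) = weight w (mk l) + w (E i) := by
  have : ∀ i, w (E i) = ∑ e, if e = E i then w e else 0 := fun i => by simp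
  rw [this i, this j, weight, weight, ← Finset.sum_add_distrib, ← Finset.sum_add_distrib]
  refine Finset.sum_congr rfl fun ⟨e, he⟩ _ => ?_
  obtain ⟨p, hp, rfl⟩ := mem_edge he
  simp only [mem_edgeSet, ok.adj hl hp, ok.adj (l' := ex l _ _) List.filter_sublist hp, E,
    Subtype.mk.injEq, inj hp (g_mem _)]
  by_cases h1 : p = g i
  · subst h1
    have : g i ≠ g j := fun h => hi (h ▸ hj)
    simp [ex, hp, hi, this]
  by_cases h2 : p = g j
  · subst h2
    simp [ex, hj, h1]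
  · simp [ex, hp, h1, h2]

set_option synthInstance.maxSize 2000 in
lemma hG : (pathGraph 2).boxProd (pathGraph 4) = mk el := by
  ext u w
  simp only [boxProd_adj, pathGraph_adj, mk_adj]
  revert u w; decide +kernel

lemma h1 : (trees (mk el)).ncard = 56 := by
  simp only [trees, tree_iff]
  rw [ok.count 7 Connected c fun l _ => hc l]; decide +kernel

lemma h2 : {T ∈ trees (mk el) | Splittable T}.ncard = 44 := by
  simp only [trees, tree_iff, mem_ofPred_eq, and_assoc]
  rw [ok.count 7 (fun T => T.Connected ∧ Splittable T) (fun l => c l && sp l) fun l hl => by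
    rw [hc, hs hl, Bool.and_eq_true]]
  decide +kernel

lemma E_inj (k : Fin 12) : (E ∘ σ k).Injective := by
  refine Function.Injective.comp (fun i j h => ?_) (by revert k; decide +kernel)
  have := (inj (g_mem i) (g_mem j)).1 (congrArg Subtype.val h)
  clear h
  revert i j; decide +kernel

open Classical in
theorem result :
    pUST ((pathGraph 2).boxProd (pathGraph 4)) < pMST ((pathGraph 2).boxProd (pathGraph 4)) := by
  rw [hG, pUST, h1, h2, pMST]
  set μ := Measure.pi fun _ : (mk el).edgeSet => ν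
  set S := {w : (mk el).edgeSet → ℝ | ∀ T ∈ trees (mk el),
    (∀ T' ∈ trees (mk el), weight w T ≤ weight w T') → Splittable T}
  have h3 : Sᶜ ⊆ ⋃ k, {w | w ∘ (E ∘ σ k) ∈ C} := by
    intro w hw
    simp only [S, mem_compl_iff, mem_ofPred_eq, not_forall] at hw
    obtain ⟨T, ⟨hT, ht⟩, hm, hn⟩ := hw
    obtain ⟨l, hl, rfl⟩ := surj hT
    rw [tree_iff, (ok.sub hl).ncard] at ht
    obtain ⟨k, hk⟩ := (key l (List.mem_sublistsLen.2 ⟨hl, ht.1⟩) ((hc l).1 ht.2)).resolve_left
      fun h => hn ((hs hl).2 h)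
    have : ∀ ij ∈ [((0, 3) : Fin 10 × Fin 10), (0, 4), (2, 5), (2, 6), (0, 7), (1, 7), (0, 8), (1, 8),
        (0, 9), (1, 9), (2, 9)], w (E (σ k ij.2)) ≤ w (E (σ k ij.1)) := fun ij h => by
      obtain ⟨a1, a2, a3, a4⟩ := hk ij h
      have hl' : (ex l (g (σ k ij.1)) (g (σ k ij.2))).Sublist el := List.filter_sublist
      have := hm _ ⟨fun u v h => by
        rw [mk_adj] at h ⊢; exact ⟨h.1.imp (hl'.subset ·) (hl'.subset ·), h.2⟩,
        (tree_iff _).2 ⟨(ok.sub hl').ncard.trans a4, (hc _).2 a3⟩⟩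
      linarith [exch w hl a1 a2]
    refine mem_iUnion.2 ⟨k, fun i => ?_⟩
    simp only [List.mem_cons, List.not_mem_nil, or_false, forall_eq_or_imp, forall_eq] at this
    fin_cases i <;> simp [b, this]
  have h4 : μ.real Sᶜ ≤ 12 * (67 / 3780) := by
    refine (measureReal_mono h3).trans ((measureReal_iUnion_fintype_le _).trans_eq ?_)
    have : ∀ k, μ.real {w | w ∘ (E ∘ σ k) ∈ C} = 67 / 3780 := fun k => by
      rw [Measure.real, vol_comp (E_inj k), ENNReal.toReal_ofReal (by norm_num)]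
    simp [this]
  have h5 := measureReal_union_le (μ := μ) S Sᶜ
  rw [union_compl_self, probReal_univ] at h5
  norm_num at h4 h5 ⊢
  linarith

end Pool.Agent.Results.MP_ddaf7c_pr.Grid
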